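import Pool.Agent.Helper6.O3.St

/-!
# Project O3, module GL: the growth factors tend to infinity
-/

set_option autoImplicit false

namespace Pool.Agent.Helper4.O3

open Pool.Agent.Helper6.O3 Filter Topology
open Pool.Agent.Helper99.DF (T TL sq chk Cert ver StVER StTRA StCMP StSND StPR1 StPRC StVP)

theorem T_at (y : ℕ → ℝ) (k : ℕ) : T y (k + 1) = y (k + 1) ^ 2 - y k * y (k + 2) := by
  simp [T]

theorem G_tendsto (y : ℕ → ℝ) (k1 : ℕ) (hy : ∀ k, k1 ≤ k → 0 < y k)
    (hT : ∀ k, k1 ≤ k → 0 < T y k) (l m : ℝ) (hl0 : 0 < l) (hm0 : 0 < m)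
    (hl : Tendsto (fun k => y (k + 1) / y k) atTop (𝓝 l))
    (hm : Tendsto (fun k => T y (k + 1) / T y k) atTop (𝓝 m)) :
    Tendsto (G y) atTop atTop := by
  have hWpos : ∀ k, k1 ≤ k → 0 < W y k := fun k hk => by
    unfold W
    have := hy k hk
    have := hT k hk
    positivity
  have hW1 : Tendsto (fun k => W y (k + 1)) atTop (𝓝 0) := by
    have h1 : Tendsto (fun k => y (k + 2) / y (k + 1)) atTop (𝓝 l) := by
      have := hl.comp (tendsto_add_atTop_nat 1)
      exact this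
    have h2 : Tendsto (fun k => 1 - (y (k + 2) / y (k + 1)) / (y (k + 1) / y k)) atTop
        (𝓝 (1 - l / l)) := (tendsto_const_nhds).sub (h1.div hl hl0.ne')
    rw [div_self hl0.ne', sub_self] at h2
    refine h2.congr' ?_
    filter_upwards [eventually_ge_atTop k1] with k hk
    have e0 := (hy k hk).ne'
    have e1 := (hy (k + 1) (by omega)).ne'
    unfold W
    rw [T_at]
    field_simp
  have hW : Tendsto (W y) atTop (𝓝 0) := by
    rwa [← tendsto_add_atTop_iff_nat 1]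
  have hWgt : Tendsto (W y) atTop (𝓝[>] 0) := by
    rw [tendsto_nhdsWithin_iff]
    refine ⟨hW, ?_⟩
    filter_upwards [eventually_ge_atTop k1] with k hk
    exact hWpos k hk
  have hinv : Tendsto (fun k => (W y k)⁻¹) atTop atTop := tendsto_inv_nhdsGT_zero.comp hWgt
  have hR : Tendsto (fun k => (T y (k + 1) / T y k) * ((y (k + 1) / y k)⁻¹) ^ 2) atTop
      (𝓝 (m * (l⁻¹) ^ 2)) := hm.mul ((hl.inv₀ hl0.ne').pow 2)
  have hOne : Tendsto (fun k => (1 - W y k) ^ 2) atTop (𝓝 ((1 - 0) ^ 2)) :=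
    (tendsto_const_nhds.sub hW).pow 2
  have hprod : Tendsto (fun k => ((T y (k + 1) / T y k) * ((y (k + 1) / y k)⁻¹) ^ 2) *
      (1 - W y k) ^ 2) atTop (𝓝 (m * (l⁻¹) ^ 2 * (1 - 0) ^ 2)) := hR.mul hOne
  have hpos : 0 < m * (l⁻¹) ^ 2 * (1 - 0) ^ 2 := by
    have : (0 : ℝ) < l⁻¹ := inv_pos.mpr hl0
    rw [sub_zero, one_pow, mul_one]
    positivity
  have hfin := hprod.pos_mul_atTop hpos hinv
  refine hfin.congr' ?_
  filter_upwards [eventually_ge_atTop k1] with k hk
  have e0 := (hy k hk).ne'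
  have e1 := (hy (k + 1) (by omega)).ne'
  have e2 := (hT k hk).ne'
  have e3 := (hT (k + 1) (by omega)).ne'
  have e4 := (hWpos k hk).ne'
  unfold G
  have hq : W y (k + 1) = (T y (k + 1) / T y k) * ((y (k + 1) / y k)⁻¹) ^ 2 * W y k := by
    unfold W
    field_simp
  rw [hq]
  field_simp

theorem hGL (hRT : StRT) : StGL := by
  intro c p q r K k0 hc hD hka hr hK hTT
  obtain ⟨l, hl0, hl, -, -⟩ := hRT c p q r k0 k0 hc (fun k hk => by
    have := hD (k + 1) (by omega)
    rw [T_at] at this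
    linarith) hka hr.ne'
  have hTpos : ∀ k, k0 ≤ k → 0 < T (T c) k := fun k hk => by
    rw [hTT k hk]
    have := hc k hk
    positivity
  obtain ⟨m, hm0, hm, -, -⟩ := hRT (T c) (-q) (-(p * r)) (r ^ 2) k0 (k0 + 1) hD (fun k hk => by
    have := hTpos (k + 1) (by omega)
    rw [T_at] at this
    linarith) (fun j hj => by
      obtain ⟨i, rfl⟩ := Nat.exists_eq_add_of_le' (show 1 ≤ j by omega)
      exact ka_T p q r c i (hka i (by omega)) (hka (i + 1) (by omega)) (hka (i + 2) (by omega)))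
    (pow_ne_zero 2 hr.ne')
  refine ⟨G_tendsto c k0 hc hD l m hl0 hm0 hl hm,
    G_tendsto (T c) k0 hD hTpos m (r * l) hm0 (mul_pos hr hl0) hm ?_⟩
  refine (hl.const_mul r).congr' ?_
  filter_upwards [eventually_ge_atTop k0] with k hk
  rw [hTT k hk, hTT (k + 1) (by omega)]
  have e0 := (hc k hk).ne'
  have e1 : r ^ k ≠ 0 := pow_ne_zero k hr.ne'
  rw [pow_succ]
  field_simp

end Pool.Agent.Helper4.O3
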